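import Mathlib
import Pool.Agent.Y13.KU.B

/-!
# MP_2fe47b_co: global synchrony below the density 3/4, weighted networks, with an explicit constant

`energy A θ = 1/2 ∑ i j, A i j (1 - cos (θ i - θ j))` on the torus, and `GloballySynchronizing A`:
the local minima of the energy are exactly the constant configurations (definitions of the starting
file `Disproof`). Here `A` is any symmetric matrix of coupling strengths between `0` and `1`.
-/

set_option autoImplicit false

open Finset

namespace Pool.Agent.Results.MP_2fe47b_co.WeightedExplicit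

open Pool.Agent.Results.MP_2fe47b_co.Disproof (energy GloballySynchronizing E)

/-- The threshold `μ*` of the problem: the infimum of all `μ` such that, for every `n`, every graph
on `n` vertices with minimum degree at least `μ n` is globally synchronizing. -/
noncomputable def muStar : ℝ :=
  sInf {μ : ℝ | ∀ (n : ℕ) (G : SimpleGraph (Fin n)) [DecidableRel G.Adj],
    μ * (n : ℝ) ≤ (G.minDegree : ℝ) → GloballySynchronizing (G.adjMatrix ℝ)}

/-- Weighted networks. -/
theorem weighted (n : ℕ) (A : Matrix (Fin n) (Fin n) ℝ) (hsym : ∀ i j, A i j = A j i)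
    (hA : ∀ i j, i ≠ j → 0 ≤ A i j ∧ A i j ≤ 1)
    (hdegA : ∀ i, (3 / 4 - 1 / 10 ^ 5) * (n : ℝ) ≤ ∑ j ∈ univ.erase i, A i j) :
    GloballySynchronizing A := by
  intro θ
  constructor
  · intro hmin
    set x : Fin n → ℝ := fun i => (θ i).toReal with hx
    have hxθ : (fun i => ((x i : ℝ) : Real.Angle)) = θ := by
      funext i; simp [hx]
    set a : Fin n → Fin n → ℝ := fun i j => if i = j then 1 else A i j with ha
    have ha0 : ∀ i j, 0 ≤ a i j := by
      intro i j
      simp only [ha]
      split_ifs with h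
      · norm_num
      · exact (hA i j h).1
    have ha1 : ∀ i j, a i j ≤ 1 := by
      intro i j
      simp only [ha]
      split_ifs with h
      · norm_num
      · exact (hA i j h).2
    have hs : ∀ i j, a i j = a j i := by
      intro i j
      simp only [ha, hsym i j, eq_comm (a := i) (b := j)]
    have hdiag : ∀ i, a i i = 1 := by intro i; simp [ha]
    have hE : ∀ y : Fin n → ℝ, E a y = energy A (fun i => ((y i : ℝ) : Real.Angle)) := by
      intro y
      unfold E energy
      congr 1
      apply Finset.sum_congr rfl; intro i _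
      apply Finset.sum_congr rfl; intro j _
      rw [← Real.Angle.coe_sub, Real.Angle.cos_coe]
      by_cases hij : i = j
      · subst hij; simp
      · simp [ha, hij]
    have hmin' : IsLocalMin (E a) x := by
      have hc : Continuous (fun y : Fin n → ℝ => fun i => ((y i : ℝ) : Real.Angle)) := by
        apply continuous_pi; intro i
        exact Real.Angle.continuous_coe.comp (continuous_apply i)
      have h1 : ∀ᶠ z in nhds ((fun y : Fin n → ℝ => fun i => ((y i : ℝ) : Real.Angle)) x),
          energy A θ ≤ energy A z := by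
        simp only [hxθ]; exact hmin
      have h2 := hc.continuousAt.eventually h1
      show ∀ᶠ z in nhds x, E a x ≤ E a z
      filter_upwards [h2] with z hz
      rw [hE, hE, hxθ]; exact hz
    have hdeg : ∀ i, ∑ j, (1 - a i j) ≤ (1 / 4 + 1 / 10 ^ 5) * (n:ℝ) := by
      intro i
      have h2 : ∑ j ∈ univ.erase i, A i j ≤ ∑ j, a i j := by
        rw [← Finset.sum_erase_add _ _ (Finset.mem_univ i), hdiag i]
        have h3 : ∑ j ∈ univ.erase i, A i j = ∑ j ∈ univ.erase i, a i j := by
          apply Finset.sum_congr rfl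
          intro j hj
          have hji : i ≠ j := (Finset.ne_of_mem_erase hj).symm
          simp [ha, hji]
        rw [h3]
        linarith
      rw [Finset.sum_sub_distrib]
      simp only [Finset.sum_const, Finset.card_univ, Fintype.card_fin, nsmul_eq_mul, mul_one]
      have h1 := hdegA i
      linarith
    have hcore := Pool.Agent.Y13.KU.core a ha0 ha1 hs hdiag hdeg x hmin'
    have hall : ∀ i j, θ i = θ j := by
      intro i j
      obtain ⟨k, hk⟩ := (Real.cos_eq_one_iff _).mp (hcore i j)
      have h1 : ((x i : ℝ) : Real.Angle) = ((x j : ℝ) : Real.Angle) := by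
        rw [Real.Angle.angle_eq_iff_two_pi_dvd_sub]
        exact ⟨k, by rw [← hk]; ring⟩
      have h2 := congrFun hxθ i
      have h3 := congrFun hxθ j
      rw [← h2, ← h3]
      exact h1
    rcases Nat.eq_zero_or_pos n with hn0 | hn
    · subst hn0; exact ⟨0, fun i => i.elim0⟩
    · exact ⟨θ ⟨0, hn⟩, fun i => hall i ⟨0, hn⟩⟩
  · rintro ⟨c, hc⟩
    have h0 : energy A θ = 0 := by
      unfold energy
      simp [hc]
    apply Filter.Eventually.of_forall
    intro z
    rw [h0]
    unfold energy
    apply mul_nonneg (by norm_num)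
    apply Finset.sum_nonneg; intro i _
    apply Finset.sum_nonneg; intro j _
    by_cases hij : i = j
    · subst hij; simp
    apply mul_nonneg (hA i j hij).1
    have h2 : (z i - z j).cos ≤ 1 := by
      rw [← Real.Angle.coe_toReal (z i - z j), Real.Angle.cos_coe]
      exact Real.cos_le_one _
    linarith

/-- Graphs. -/
theorem graphs (n : ℕ) (G : SimpleGraph (Fin n)) [DecidableRel G.Adj]
    (hG : (3 / 4 - 1 / 10 ^ 5) * (n : ℝ) ≤ (G.minDegree : ℝ)) :
    GloballySynchronizing (G.adjMatrix ℝ) := by
  apply weighted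
  · intro i j
    simp [SimpleGraph.adjMatrix_apply, G.adj_comm i j]
  · intro i j _
    simp only [SimpleGraph.adjMatrix_apply]
    split_ifs <;> norm_num
  · intro i
    have h1 : (G.minDegree : ℝ) ≤ (G.degree i : ℝ) := by exact_mod_cast G.minDegree_le_degree i
    have h3 : (G.degree i : ℝ) = ∑ j, G.adjMatrix ℝ i j := by
      simp [SimpleGraph.adjMatrix_apply, ← SimpleGraph.card_neighborFinset_eq_degree,
        SimpleGraph.neighborFinset_eq_filter]
    have h4 : ∑ j, G.adjMatrix ℝ i j = ∑ j ∈ univ.erase i, G.adjMatrix ℝ i j := by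
      rw [← Finset.sum_erase_add _ _ (Finset.mem_univ i)]
      simp
    linarith

/-- **Weighted networks, explicit constant.**

1. For every `n` and every symmetric matrix `A` with off-diagonal entries in `[0, 1]` and
   `∑_{j ≠ i} A i j ≥ (3/4 - 10⁻⁵) n` for all `i`, the local minima of the energy are exactly the
   constant configurations.
2. In particular every graph on `n` vertices with minimum degree at least `(3/4 - 10⁻⁵) n` is
   globally synchronizing.
3. `0 ≤ μ* ≤ 3/4 - 10⁻⁵`. -/
theorem result :
    (∀ (n : ℕ) (A : Matrix (Fin n) (Fin n) ℝ), (∀ i j, A i j = A j i) →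
      (∀ i j, i ≠ j → 0 ≤ A i j ∧ A i j ≤ 1) →
      (∀ i, (3 / 4 - 1 / 10 ^ 5) * (n : ℝ) ≤ ∑ j ∈ univ.erase i, A i j) →
        GloballySynchronizing A) ∧
    (∀ (n : ℕ) (G : SimpleGraph (Fin n)) [DecidableRel G.Adj],
      (3 / 4 - 1 / 10 ^ 5) * (n : ℝ) ≤ (G.minDegree : ℝ) →
        GloballySynchronizing (G.adjMatrix ℝ)) ∧
    0 ≤ muStar ∧ muStar ≤ 3 / 4 - 1 / 10 ^ 5 := by
  have hmem : (3 / 4 - 1 / 10 ^ 5 : ℝ) ∈ {μ : ℝ | ∀ (n : ℕ) (G : SimpleGraph (Fin n))
      [DecidableRel G.Adj], μ * (n : ℝ) ≤ (G.minDegree : ℝ) →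
        GloballySynchronizing (G.adjMatrix ℝ)} := fun n G _ h => graphs n G h
  have hlow : ∀ μ ∈ {μ : ℝ | ∀ (n : ℕ) (G : SimpleGraph (Fin n))
      [DecidableRel G.Adj], μ * (n : ℝ) ≤ (G.minDegree : ℝ) →
        GloballySynchronizing (G.adjMatrix ℝ)}, 0 ≤ μ := by
    intro μ hμ
    by_contra hneg
    push Not at hneg
    classical
    have h1 : GloballySynchronizing ((⊥ : SimpleGraph (Fin 2)).adjMatrix ℝ) := by
      apply hμ 2 ⊥
      have : (0 : ℝ) ≤ ((⊥ : SimpleGraph (Fin 2)).minDegree : ℝ) := Nat.cast_nonneg _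
      push_cast
      linarith
    have h2 : ∀ θ : Fin 2 → Real.Angle, energy ((⊥ : SimpleGraph (Fin 2)).adjMatrix ℝ) θ = 0 := by
      intro θ
      unfold energy
      simp [SimpleGraph.adjMatrix_apply]
    have h3 : IsLocalMin (energy ((⊥ : SimpleGraph (Fin 2)).adjMatrix ℝ))
        (fun i => if i = 0 then 0 else (Real.pi : Real.Angle)) := by
      apply Filter.Eventually.of_forall
      intro z
      rw [h2, h2]
    obtain ⟨c, hc⟩ := (h1 _).1 h3
    have h4 := hc 0
    have h5 := hc 1
    simp only [if_true, Fin.isValue, one_ne_zero, if_false] at h4 h5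
    rw [← h4] at h5
    exact Real.Angle.pi_ne_zero h5
  exact ⟨fun n A h1 h2 h3 => weighted n A h1 h2 h3, fun n G _ h => graphs n G h,
    le_csInf ⟨_, hmem⟩ hlow, csInf_le ⟨0, hlow⟩ hmem⟩

end Pool.Agent.Results.MP_2fe47b_co.WeightedExplicit
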